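import Pool.Agent.Helper5.FV.Stmts

set_option autoImplicit false

open Finset Pool.Agent.Helper8.UN

namespace Pool.Agent.Helper5.FV

theorem faw_num : ∃ n₀ : ℕ, ∀ n ≥ n₀, 3 ≤ n ∧
    Real.exp (985 / 1000 * Real.log n) ≤ 97 / 100 * ((n : ℝ) / Real.log n) := by
  have h1 := (isLittleO_log_rpow_atTop (show (0 : ℝ) < 15 / 1000 by norm_num)).bound
    (show (0 : ℝ) < 97 / 100 by norm_num)
  have h2 := (tendsto_natCast_atTop_atTop (R := ℝ)).eventually h1
  obtain ⟨a, ha⟩ := Filter.eventually_atTop.1 h2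
  refine ⟨max a 3, fun n hn => ⟨le_trans (le_max_right _ _) hn, ?_⟩⟩
  have hn3 : 3 ≤ n := le_trans (le_max_right _ _) hn
  have h3 := ha n (le_trans (le_max_left _ _) hn)
  have hnpos : (0 : ℝ) < n := by
    have : 0 < n := by omega
    exact_mod_cast this
  have hn1 : (1 : ℝ) < n := by
    have : 1 < n := by omega
    exact_mod_cast this
  have hL : 0 < Real.log n := Real.log_pos hn1
  rw [Real.norm_of_nonneg hL.le, Real.norm_of_nonneg (Real.rpow_nonneg hnpos.le _)] at h3
  have h4 : Real.exp (985 / 1000 * Real.log n) = (n : ℝ) ^ (985 / 1000 : ℝ) := by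
    rw [Real.rpow_def_of_pos hnpos, mul_comm]
  have h5 : (n : ℝ) = (n : ℝ) ^ (985 / 1000 : ℝ) * (n : ℝ) ^ (15 / 1000 : ℝ) := by
    rw [← Real.rpow_add hnpos]
    norm_num
  have h6 : 0 < (n : ℝ) ^ (985 / 1000 : ℝ) := Real.rpow_pos_of_pos hnpos _
  rw [h4, mul_div_assoc', le_div_iff₀ hL]
  calc (n : ℝ) ^ (985 / 1000 : ℝ) * Real.log n ≤
      (n : ℝ) ^ (985 / 1000 : ℝ) * (97 / 100 * (n : ℝ) ^ (15 / 1000 : ℝ)) :=
        mul_le_mul_of_nonneg_left h3 h6.le
    _ = 97 / 100 * ((n : ℝ) ^ (985 / 1000 : ℝ) * (n : ℝ) ^ (15 / 1000 : ℝ)) := by ring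
    _ = 97 / 100 * n := by rw [← h5]

theorem st_FAW (h1 : ST_F1) (h2 : ST_F2) (_h3 : ST_POS) (h4 : ST_B3N) (h5 : ST_BKD) : ST_FAW := by
  classical
  obtain ⟨n₁, hn₁⟩ := h4
  obtain ⟨n₂, hn₂⟩ := faw_num
  refine ⟨max n₁ n₂, fun n hn D0 r m E W hR hm => ?_⟩
  obtain ⟨hn3, hexp⟩ := hn₂ n (le_trans (le_max_right _ _) hn)
  have hn1 : (1 : ℝ) < n := by
    have : 1 < n := by omega
    exact_mod_cast this
  have hL : 0 < Real.log n := Real.log_pos hn1
  have hq : 0 < (n : ℝ) / Real.log n := by positivity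
  have hm97 : 97 / 100 * ((n : ℝ) / Real.log n) ≤ m := by
    rcases hm with hm | hm
    · linarith
    · exact hm.1
  obtain ⟨hr4, hD, -, hm4, -, -⟩ := hn₁ n (le_trans (le_max_left _ _) hn) D0 r m hR.d0 hR.r0
    (by linarith)
  have hBD := h5 n D0 r E hR.two hr4 hR.deg
  generalize DD n D0 r = D at hD hBD
  have hDr : (1000 : ℝ) * D ≤ m := by exact_mod_cast hD
  have hm4r : (10000 : ℝ) ≤ m := by exact_mod_cast hm4
  have hDm : D ≤ m := by omega
  have hmD : (0 : ℝ) < (m : ℝ) - D := by linarith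
  obtain ⟨x, hx⟩ : ∃ x : ℝ, x = 1 / ((m : ℝ) - D) := ⟨_, rfl⟩
  have hx0 : 0 < x := by rw [hx]; positivity
  have hF2 := (h2 n m E W hR.two).2
  have hterm : ∀ B : Finset (Fin n), B ⊆ W →
      (AA E (W \ B) m : ℝ) ≤ AA E W m * x ^ B.card := by
    intro B hB
    have h6 := (h1 n D m E (W \ B) B hR.two hBD disjoint_sdiff_self_left).2.2
    rw [Finset.sdiff_union_of_subset hB] at h6
    have h7 : (((m - D : ℕ) : ℝ)) ^ B.card * AA E (W \ B) m ≤ AA E W m := by
      exact_mod_cast h6
    rw [Nat.cast_sub hDm] at h7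
    rw [hx, one_div, inv_pow, ← div_eq_mul_inv, le_div_iff₀ (pow_pos hmD _)]
    linarith
  have hsum : (AA E W (m + 1) : ℝ) ≤ AA E W m * ((x + 1) ^ W.card - 1) := by
    rw [hF2]
    push_cast
    have e1 : ∑ B ∈ W.powerset.filter
        (fun B => B.Nonempty ∧ Pool.Agent.Helper89.UB.Al E B), (AA E (W \ B) m : ℝ) ≤
        ∑ B ∈ W.powerset.erase ∅, (AA E W m : ℝ) * x ^ B.card := by
      calc ∑ B ∈ W.powerset.filter
            (fun B => B.Nonempty ∧ Pool.Agent.Helper89.UB.Al E B), (AA E (W \ B) m : ℝ)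
          ≤ ∑ B ∈ W.powerset.filter
            (fun B => B.Nonempty ∧ Pool.Agent.Helper89.UB.Al E B),
              (AA E W m : ℝ) * x ^ B.card :=
            Finset.sum_le_sum (fun B hB =>
              hterm B (Finset.mem_powerset.1 (Finset.mem_filter.1 hB).1))
        _ ≤ _ := by
          apply Finset.sum_le_sum_of_subset_of_nonneg
          · intro B hB
            rw [Finset.mem_filter] at hB
            rw [Finset.mem_erase]
            exact ⟨hB.2.1.ne_empty, hB.1⟩
          · intro B _ _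
            positivity
    have e2 : ∑ B ∈ W.powerset, (AA E W m : ℝ) * x ^ B.card =
        AA E W m * (x + 1) ^ W.card := by
      rw [← Finset.mul_sum]
      congr 1
      have := Finset.sum_pow_mul_eq_add_pow x 1 W
      simp only [one_pow, mul_one] at this
      exact this
    have e3 := Finset.sum_erase_add W.powerset
      (fun B : Finset (Fin n) => (AA E W m : ℝ) * x ^ B.card) (Finset.empty_mem_powerset _)
    simp only [Finset.card_empty, pow_zero, mul_one] at e3
    rw [e2] at e3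
    calc _ ≤ _ := e1
      _ = AA E W m * ((x + 1) ^ W.card - 1) := by linarith
  have hxL : (W.card : ℝ) * x ≤ 985 / 1000 * Real.log n := by
    rw [hx, mul_one_div, div_le_iff₀ hmD]
    have e5 : (999 / 1000 : ℝ) * m ≤ (m : ℝ) - D := by linarith
    have e6 : (999 / 1000 : ℝ) * (m * Real.log n) ≤ ((m : ℝ) - D) * Real.log n := by
      have := mul_le_mul_of_nonneg_right e5 hL.le
      linarith
    have hn0 : (0 : ℝ) < n := by linarith
    have hcard : (W.card : ℝ) ≤ n := by
      have h := Finset.card_le_univ W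
      rw [Fintype.card_fin] at h
      exact_mod_cast h
    rcases hm with hm | hm
    · have e4 : 119 / 100 * (n : ℝ) ≤ m * Real.log n := by
        have := mul_le_mul_of_nonneg_right hm hL.le
        calc 119 / 100 * (n : ℝ) = 119 / 100 * ((n : ℝ) / Real.log n) * Real.log n := by
              field_simp
          _ ≤ m * Real.log n := this
      nlinarith
    · have e4 : 97 / 100 * (n : ℝ) ≤ m * Real.log n := by
        have := mul_le_mul_of_nonneg_right hm.1 hL.le
        calc 97 / 100 * (n : ℝ) = 97 / 100 * ((n : ℝ) / Real.log n) * Real.log n := by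
              field_simp
          _ ≤ m * Real.log n := this
      have e7 := hm.2
      nlinarith
  have hpow : (x + 1) ^ W.card ≤ Real.exp (985 / 1000 * Real.log n) := by
    calc (x + 1) ^ W.card ≤ (Real.exp x) ^ W.card :=
          pow_le_pow_left₀ (by linarith) (Real.add_one_le_exp x) _
      _ = Real.exp (W.card * x) := by rw [← Real.exp_nat_mul]
      _ ≤ _ := Real.exp_le_exp.2 hxL
  have hfin : (AA E W (m + 1) : ℝ) ≤ (m + 1) * AA E W m := by
    calc (AA E W (m + 1) : ℝ) ≤ AA E W m * ((x + 1) ^ W.card - 1) := hsum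
      _ ≤ AA E W m * (m + 1) := by
          apply mul_le_mul_of_nonneg_left _ (Nat.cast_nonneg _)
          linarith
      _ = _ := by ring
  exact_mod_cast hfin

end Pool.Agent.Helper5.FV
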